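import Mathlib

set_option autoImplicit false

/-!
# The projective hierarchy over a sequence of sets does not collapse if `E` maps onto `2^ω`
-/

namespace Pool.Agent.Results.MP_1c8600_lc.NoCollapse

open Set MeasureTheory

/-- The rectangles `A_{n_1} × ⋯ × A_{n_m}` in `E^m`. -/
def rects {E : Type*} (A : ℕ → Set E) (m : ℕ) : Set (Set (Fin m → E)) :=
  {R | ∃ n : Fin m → ℕ, R = {x | ∀ i, x i ∈ A (n i)}}

/-- `B_m`, the `σ`-algebra on `E^m` generated by the rectangles. -/
@[instance_reducible] def Bor {E : Type*} (A : ℕ → Set E) (m : ℕ) : MeasurableSpace (Fin m → E) :=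
  MeasurableSpace.generateFrom (rects A m)

/-- The projection onto `E^m` (deleting the last coordinate) of a subset of `E^(m+1)`. -/
def proj {E : Type*} {m : ℕ} (S : Set (Fin (m + 1) → E)) : Set (Fin m → E) :=
  {x | ∃ y : E, (Fin.snoc x y : Fin (m + 1) → E) ∈ S}

/-- `Sig A k m` is the family `Σ^{(m)}_k` of subsets of `E^m` for `k ≥ 1`: `Sig A 1 m` consists of the
projections of the sets in `B_{m+1}` and `Sig A (k+1) m` of the projections of the complements of the
sets in `Sig A k (m+1)`. (`Sig A 0 m` is `B_m`.) -/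
def Sig {E : Type*} (A : ℕ → Set E) : ℕ → (m : ℕ) → Set (Set (Fin m → E))
  | 0, m => {S | MeasurableSet[Bor A m] S}
  | k + 1, m => {S | ∃ T ∈ Sig A k (m + 1), S = proj Tᶜ}

/-- The set `S ⊆ E` is of projective class `k` (`k ≥ 1`). -/
def IsClass {E : Type*} (A : ℕ → Set E) (k : ℕ) (S : Set E) : Prop :=
  {x : Fin 1 → E | x 0 ∈ S} ∈ Sig A k 1

/-- The set `S ⊆ E` is projective over `{A_n}`: for some `k ≥ 1` it is of class `k` or its
complement is. -/
def IsProjective {E : Type*} (A : ℕ → Set E) (S : Set E) : Prop :=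
  ∃ k, 1 ≤ k ∧ (IsClass A k S ∨ IsClass A k Sᶜ)

/-- Property (b)_k: every projective set over `{A_n}` is of class `k`. -/
def Collapse {E : Type*} (A : ℕ → Set E) (k : ℕ) : Prop :=
  ∀ S : Set E, IsProjective A S → IsClass A k S

/-- `BC A α S`: the set `S` belongs to the Borel class `C_α` over `{A_n}`: `C_0` consists of the sets
`A_n` and their complements; for `α > 0`, `C_α` consists of the unions of countable families of sets
from the classes `C_β`, `β < α`, and of the complements of such unions. -/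
inductive BC {E : Type*} (A : ℕ → Set E) : Ordinal.{0} → Set E → Prop
  | base (n : ℕ) : BC A 0 (A n)
  | baseCompl (n : ℕ) : BC A 0 (A n)ᶜ
  | union (α : Ordinal.{0}) (hα : 0 < α) (𝒮 : Set (Set E)) (h𝒮 : 𝒮.Countable)
      (β : Set E → Ordinal.{0}) (hβ : ∀ S ∈ 𝒮, β S < α) (h : ∀ S ∈ 𝒮, BC A (β S) S) :
      BC A α (⋃₀ 𝒮)
  | unionCompl (α : Ordinal.{0}) (hα : 0 < α) (𝒮 : Set (Set E)) (h𝒮 : 𝒮.Countable)
      (β : Set E → Ordinal.{0}) (hβ : ∀ S ∈ 𝒮, β S < α) (h : ∀ S ∈ 𝒮, BC A (β S) S) :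
      BC A α (⋃₀ 𝒮)ᶜ

/-- Property (a): the Borel classes do not stabilise: for every countable ordinal `α` some set in the
`σ`-algebra generated by the `A_n` is not in `C_α`. -/
def NotStable {E : Type*} (A : ℕ → Set E) : Prop :=
  ∀ α : Ordinal.{0}, (Iio α).Countable →
    ∃ S, MeasurableSet[MeasurableSpace.generateFrom (range A)] S ∧ ¬ BC A α S

/-- `E` is large for `{A_n}`: some map `f : E → 2^ω` which is measurable for the `σ`-algebra generated
by the `A_n` takes all values in some uncountable Borel set (for example, all values). -/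
def Large {E : Type*} (A : ℕ → Set E) : Prop :=
  ∃ f : E → ℕ → Bool,
    (∀ n, MeasurableSet[MeasurableSpace.generateFrom (range A)] {x | f x n = true}) ∧
    ∃ B : Set (ℕ → Bool), MeasurableSet B ∧ ¬ B.Countable ∧ B ⊆ range f

/-- the characteristic map `E → 2^ω` of the sequence -/
noncomputable def chi {E : Type*} (A : ℕ → Set E) (x : E) : ℕ → Bool := by
  classical exact fun n => decide (x ∈ A n)

lemma chi_iff {E : Type*} (A : ℕ → Set E) (x : E) (n : ℕ) : chi A x n = true ↔ x ∈ A n := by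
  simp [chi]

/-- the map `E^m → (2^ω)^m` -/
noncomputable def chim {E : Type*} (A : ℕ → Set E) {m : ℕ} (x : Fin m → E) : Fin m → ℕ → Bool :=
  fun i => chi A (x i)

lemma meas_coord {E : Type*} (A : ℕ → Set E) (hA : ⋃ n, A n = univ) {m : ℕ} (i : Fin m) (n : ℕ) :
    MeasurableSet[Bor A m] {x : Fin m → E | x i ∈ A n} := by
  have h : {x : Fin m → E | x i ∈ A n} =
      ⋃ p : {p : Fin m → ℕ // p i = n}, {x : Fin m → E | ∀ j, x j ∈ A (p.1 j)} := by
    ext x
    simp only [mem_ofPred_eq, mem_iUnion]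
    constructor
    · intro hx
      have h1 : ∀ j, ∃ q, x j ∈ A q ∧ (j = i → q = n) := by
        intro j
        by_cases hj : j = i
        · subst hj
          exact ⟨n, hx, fun _ => rfl⟩
        · have : x j ∈ ⋃ n, A n := by
            rw [hA]
            trivial
          obtain ⟨q, hq⟩ := mem_iUnion.1 this
          exact ⟨q, hq, fun h => (hj h).elim⟩
      choose q hq using h1
      exact ⟨⟨q, (hq i).2 rfl⟩, fun j => (hq j).1⟩
    · rintro ⟨p, hp⟩
      have := hp i
      rwa [p.2] at this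
  rw [h]
  exact MeasurableSet.iUnion fun p => MeasurableSpace.measurableSet_generateFrom ⟨p.1, rfl⟩

lemma meas_chim {E : Type*} (A : ℕ → Set E) (hA : ⋃ n, A n = univ) (m : ℕ) :
    Measurable[Bor A m] (chim A : (Fin m → E) → Fin m → ℕ → Bool) := by
  let _ := Bor A m
  refine measurable_pi_lambda _ fun i => measurable_pi_lambda _ fun n => ?_
  refine measurable_to_bool ?_
  have : (fun x : Fin m → E => chim A x i n) ⁻¹' {true} = {x | x i ∈ A n} := by
    ext x
    simp [chim, chi_iff]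
  rw [this]
  exact meas_coord A hA i n

lemma bor_le {E : Type*} (A : ℕ → Set E) (m : ℕ) {S : Set (Fin m → E)}
    (hS : MeasurableSet[Bor A m] S) :
    ∃ B : Set (Fin m → ℕ → Bool), MeasurableSet B ∧ S = chim A ⁻¹' B := by
  have h : Bor A m ≤ MeasurableSpace.comap (chim A) inferInstance := by
    refine MeasurableSpace.generateFrom_le ?_
    rintro R ⟨n, rfl⟩
    refine ⟨{t | ∀ i, t i (n i) = true}, ?_, ?_⟩
    · have : {t : Fin m → ℕ → Bool | ∀ i, t i (n i) = true} =
          ⋂ i, {t : Fin m → ℕ → Bool | t i (n i) = true} := by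
        ext t
        simp
      rw [this]
      refine MeasurableSet.iInter fun i => ?_
      have h1 : Measurable fun t : Fin m → ℕ → Bool => t i (n i) :=
        (measurable_pi_apply (n i)).comp (measurable_pi_apply i)
      exact h1 (measurableSet_singleton true)
    · ext x
      simp [chim, chi_iff]
  obtain ⟨B, hB, hB'⟩ := h S hS
  exact ⟨B, hB, hB'.symm⟩

/-- reindexing -/
lemma sig_reindex {E : Type*} (A : ℕ → Set E) (hA : ⋃ n, A n = univ) (k : ℕ) : ∀ (m m' : ℕ)
    (σ : Fin m → Fin m') (S : Set (Fin m → E)), S ∈ Sig A k m →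
      {x : Fin m' → E | x ∘ σ ∈ S} ∈ Sig A k m' := by
  induction k with
  | zero =>
    intro m m' σ S hS
    obtain ⟨B, hB, rfl⟩ := bor_le A m hS
    have h : {x : Fin m' → E | x ∘ σ ∈ chim A ⁻¹' B} = chim A ⁻¹' {t | t ∘ σ ∈ B} := by
      ext x
      rfl
    show MeasurableSet[Bor A m'] _
    rw [h]
    refine (meas_chim A hA m') ?_
    have h1 : Measurable fun t : Fin m' → ℕ → Bool => t ∘ σ :=
      measurable_pi_lambda _ fun i => measurable_pi_apply (σ i)
    exact h1 hB
  | succ k ih =>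
    rintro m m' σ S ⟨T, hT, rfl⟩
    refine ⟨_, ih (m + 1) (m' + 1) (Fin.snoc (fun i => (σ i).castSucc) (Fin.last m')) T hT, ?_⟩
    ext x
    simp only [proj, mem_ofPred_eq, mem_compl_iff]
    refine exists_congr fun y => ?_
    have : (Fin.snoc x y : Fin (m' + 1) → E) ∘
        (Fin.snoc (fun i => (σ i).castSucc) (Fin.last m') : Fin (m + 1) → Fin (m' + 1)) =
        Fin.snoc (x ∘ σ) y := by
      funext i
      refine Fin.lastCases ?_ (fun i => ?_) i
      · simp
      · simp
    rw [this]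

lemma meas_proj {E : Type*} (A : ℕ → Set E) (hA : ⋃ n, A n = univ) (m : ℕ) (i : Fin m) :
    @Measurable _ _ (Bor A m) (MeasurableSpace.generateFrom (range A)) (fun x : Fin m → E => x i) := by
  refine @measurable_generateFrom _ _ (Bor A m) _ _ ?_
  rintro _ ⟨n, rfl⟩
  exact meas_coord A hA i n

/-- the universal sets -/
def T {E : Type*} (A : ℕ → Set E) (F : E → ℕ → ℕ)
    (V : (m : ℕ) → ℕ → Set ((Fin m → ℕ → Bool) × (ℕ → ℕ))) : ℕ → (m : ℕ) → Set (Fin (m + 1) → E)
  | 0, m => {w | ∃ z : E, ∀ n, F (w 0) n ≠ 0 → (chim A (fun i => w i.succ), F z) ∉ V m n}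
  | k + 1, m => proj (T A F V k (m + 1))ᶜ

lemma polish (m : ℕ) : PolishSpace (Fin m → ℕ → Bool) := by
  have h1 : TopologicalSpace.IsCompletelyMetrizableSpace (Fin m → ℕ → Bool) := inferInstance
  have h2 : TopologicalSpace.SeparableSpace (Fin m → ℕ → Bool) := inferInstance
  infer_instance

lemma exists_basis : ∃ V : (m : ℕ) → ℕ → Set ((Fin m → ℕ → Bool) × (ℕ → ℕ)),
    ∀ m, (∀ n, IsOpen (V m n)) ∧ ∀ O, IsOpen O → ∃ I : Set ℕ, O = ⋃ n ∈ I, V m n := by
  have h : ∀ m : ℕ, ∃ V : ℕ → Set ((Fin m → ℕ → Bool) × (ℕ → ℕ)),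
      (∀ n, IsOpen (V n)) ∧ ∀ O, IsOpen O → ∃ I : Set ℕ, O = ⋃ n ∈ I, V n := by
    intro m
    obtain ⟨b, hb, -, hb2⟩ := TopologicalSpace.exists_countable_basis
      ((Fin m → ℕ → Bool) × (ℕ → ℕ))
    obtain ⟨V, hV⟩ := (hb.insert ∅).exists_eq_range (insert_nonempty _ _)
    refine ⟨V, fun n => ?_, fun O hO => ?_⟩
    · have : V n ∈ insert ∅ b := by
        rw [hV]
        exact mem_range_self n
      rcases this with h | h
      · rw [h]
        exact isOpen_empty
      · exact hb2.isOpen h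
    · refine ⟨{n | V n ⊆ O}, ?_⟩
      ext x
      simp only [mem_iUnion, mem_ofPred_eq]
      constructor
      · intro hx
        obtain ⟨v, hv, hxv, hvO⟩ := hb2.exists_subset_of_mem_open hx hO
        have : v ∈ range V := by
          rw [← hV]
          exact mem_insert_of_mem _ hv
        obtain ⟨n, rfl⟩ := this
        exact ⟨n, hvO, hxv⟩
      · rintro ⟨n, hn, hx⟩
        exact hn hx
  choose V hV using h
  exact ⟨V, hV⟩

lemma universal {E : Type*} (A : ℕ → Set E) (F : E → ℕ → ℕ) (hF : Function.Surjective F)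
    (V : (m : ℕ) → ℕ → Set ((Fin m → ℕ → Bool) × (ℕ → ℕ)))
    (hV : ∀ m, (∀ n, IsOpen (V m n)) ∧ ∀ O, IsOpen O → ∃ I : Set ℕ, O = ⋃ n ∈ I, V m n) (k : ℕ) :
    ∀ (m : ℕ) (S : Set (Fin m → E)), S ∈ Sig A k m →
      ∃ c : E, ∀ x, x ∈ S ↔ (Fin.cons c x : Fin (m + 1) → E) ∈ T A F V k m := by
  classical
  induction k with
  | zero =>
    intro m S hS
    obtain ⟨B, hB, rfl⟩ := bor_le A m hS
    have h1 : ∃ C : Set ((Fin m → ℕ → Bool) × (ℕ → ℕ)), IsClosed C ∧
        ∀ t, t ∈ B ↔ ∃ z, (t, z) ∈ C := by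
      have h0 := polish m
      have h2 := hB.analyticSet
      rw [AnalyticSet] at h2
      rcases h2 with rfl | ⟨φ, hφ, rfl⟩
      · exact ⟨∅, isClosed_empty, fun t => by simp⟩
      · exact ⟨{p | φ p.2 = p.1}, isClosed_eq (hφ.comp continuous_snd) continuous_fst,
          fun t => Iff.rfl⟩
    obtain ⟨C, hC, hC2⟩ := h1
    obtain ⟨I, hI⟩ := (hV m).2 Cᶜ hC.isOpen_compl
    obtain ⟨c, hc⟩ := hF (fun n => if n ∈ I then 1 else 0)
    refine ⟨c, fun x => ?_⟩
    rw [mem_preimage, hC2]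
    have h3 : ∀ p, p ∈ C ↔ ∀ n, F c n ≠ 0 → p ∉ V m n := by
      intro p
      rw [hc]
      have h4 : p ∈ C ↔ ¬ p ∈ ⋃ n ∈ I, V m n := by
        rw [← hI]
        simp
      rw [h4]
      simp
    constructor
    · rintro ⟨z, hz⟩
      obtain ⟨z', rfl⟩ := hF z
      refine ⟨z', ?_⟩
      have := (h3 _).1 hz
      simpa using this
    · rintro ⟨z, hz⟩
      refine ⟨F z, (h3 _).2 ?_⟩
      simpa using hz
  | succ k ih =>
    rintro m S ⟨R, hR, rfl⟩
    obtain ⟨c, hc⟩ := ih (m + 1) R hR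
    refine ⟨c, fun x => ?_⟩
    show (∃ y, _) ↔ (∃ y, _)
    refine exists_congr fun y => ?_
    rw [mem_compl_iff, mem_compl_iff, hc, Fin.cons_snoc_eq_snoc_cons]

lemma T_sig {E : Type*} (A : ℕ → Set E) (F : E → ℕ → ℕ)
    (hF : ∀ (m : ℕ) (i : Fin m), Measurable[Bor A m] (fun x : Fin m → E => F (x i)))
    (hA : ⋃ n, A n = univ)
    (V : (m : ℕ) → ℕ → Set ((Fin m → ℕ → Bool) × (ℕ → ℕ)))
    (hV : ∀ m, (∀ n, IsOpen (V m n)) ∧ ∀ O, IsOpen O → ∃ I : Set ℕ, O = ⋃ n ∈ I, V m n) (k : ℕ) :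
    ∀ m, T A F V k m ∈ Sig A (k + 1) (m + 1) := by
  induction k with
  | zero =>
    intro m
    let _ := Bor A (m + 2)
    set g : (Fin (m + 2) → E) → (Fin m → ℕ → Bool) × (ℕ → ℕ) :=
      fun w => (chim A (fun i : Fin m => w i.castSucc.succ), F (w (Fin.last (m + 1)))) with hg
    have hgm : Measurable g := by
      have h1 : Measurable fun w : Fin (m + 2) → E => chim A (fun i : Fin m => w i.castSucc.succ) :=
        measurable_pi_lambda _ fun i =>
          (measurable_pi_apply (i.castSucc.succ)).comp (meas_chim A hA (m + 2))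
      exact h1.prodMk (hF (m + 2) (Fin.last (m + 1)))
    have h0 : Measurable fun w : Fin (m + 2) → E => F (w 0) := hF (m + 2) 0
    refine ⟨{w | ∀ n, F (w 0) n ≠ 0 → g w ∉ V m n}ᶜ, ?_, ?_⟩
    · show MeasurableSet[Bor A (m + 2)] _
      refine MeasurableSet.compl ?_
      have h1 : {w : Fin (m + 2) → E | ∀ n, F (w 0) n ≠ 0 → g w ∉ V m n} =
          ⋂ n, ({w | F (w 0) n = 0} ∪ {w | g w ∈ (V m n)ᶜ}) := by
        ext w
        simp only [mem_ofPred_eq, mem_iInter, mem_union, mem_compl_iff]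
        refine forall_congr' fun n => ?_
        tauto
      rw [h1]
      refine MeasurableSet.iInter fun n => MeasurableSet.union ?_ ?_
      · exact ((measurable_pi_apply n).comp h0) (measurableSet_singleton 0)
      · exact hgm ((hV m).1 n).measurableSet.compl
    · ext w
      simp only [T, proj, compl_compl, mem_ofPred_eq]
      refine exists_congr fun z => forall_congr' fun n => ?_
      have h2 : g (Fin.snoc w z : Fin (m + 2) → E) = (chim A (fun i => w i.succ), F z) := by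
        simp only [hg]
        have : ∀ i : Fin m, (Fin.snoc w z : Fin (m + 2) → E) i.castSucc.succ = w i.succ := by
          intro i
          rw [Fin.succ_castSucc]
          exact Fin.snoc_castSucc (α := fun _ => E) z w i.succ
        simp [this]
      have h3 : (Fin.snoc w z : Fin (m + 2) → E) 0 = w 0 := by
        exact Fin.snoc_castSucc (α := fun _ => E) z w 0
      rw [h2, h3]
  | succ k ih =>
    intro m
    exact ⟨_, ih (m + 1), rfl⟩

lemma large_surj {E : Type*} (A : ℕ → Set E) (h : Large A) : ∃ F : E → ℕ → ℕ,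
    @Measurable _ _ (MeasurableSpace.generateFrom (range A)) _ F ∧ Function.Surjective F := by
  classical
  obtain ⟨f, hf, B, hB, hBc, hBf⟩ := h
  have h1 : TopologicalSpace.IsCompletelyMetrizableSpace (ℕ → Bool) := inferInstance
  have h2 : PolishSpace (ℕ → Bool) := by infer_instance
  have h5 : StandardBorelSpace B := hB.standardBorel
  have h3 : ¬ Countable B := fun h => hBc (countable_coe_iff.1 h)
  have h4 : ¬ Countable (ℕ → ℕ) := by
    intro h
    obtain ⟨g, hg⟩ := exists_surjective_nat (ℕ → ℕ)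
    obtain ⟨n, hn⟩ := hg fun n => g n n + 1
    have := congrFun hn n
    omega
  let e : B ≃ᵐ (ℕ → ℕ) := PolishSpace.measurableEquivOfNotCountable h3 h4
  obtain ⟨g, hg⟩ : ∃ g : (ℕ → Bool) → ℕ → ℕ, g = fun t => if h : t ∈ B then e ⟨t, h⟩ else 0 :=
    ⟨_, rfl⟩
  have hgm : Measurable g := by
    rw [hg]
    exact Measurable.dite e.measurable measurable_const hB
  let _ := MeasurableSpace.generateFrom (range A)
  have hfm : Measurable f := by
    refine measurable_pi_lambda _ fun n => measurable_to_bool ?_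
    exact hf n
  refine ⟨fun x => g (f x), hgm.comp hfm, fun y => ?_⟩
  obtain ⟨x, hx⟩ := hBf (e.symm y).2
  refine ⟨x, ?_⟩
  simp only [hx, hg]
  rw [dif_pos (e.symm y).2]
  simp

lemma main {E : Type*} (A : ℕ → Set E) (hA : ⋃ n, A n = univ) (h : Large A) (k : ℕ) :
    ∃ S, IsClass A (k + 1) Sᶜ ∧ ¬ IsClass A k S := by
  obtain ⟨V, hV⟩ := exists_basis
  obtain ⟨F, hF, hFs⟩ := large_surj A h
  have hFm : ∀ (m : ℕ) (i : Fin m), Measurable[Bor A m] (fun x : Fin m → E => F (x i)) :=
    fun m i => hF.comp (meas_proj A hA m i)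
  refine ⟨{a | (fun _ => a : Fin 2 → E) ∉ T A F V k 1}, ?_, fun h => ?_⟩
  · have h1 := sig_reindex A hA (k + 1) 2 1 (fun _ => 0) _ (T_sig A F hFm hA V hV k 1)
    have h2 : {x : Fin 1 → E | x 0 ∈ {a | (fun _ => a : Fin 2 → E) ∉ T A F V k 1}ᶜ} =
        {x : Fin 1 → E | x ∘ (fun _ => 0 : Fin 2 → Fin 1) ∈ T A F V k 1} := by
      ext x
      simp only [mem_ofPred_eq, mem_compl_iff, not_not]
      rfl
    unfold IsClass
    rw [h2]
    exact h1
  · obtain ⟨c, hc⟩ := universal A F hFs V hV k 1 _ h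
    have h1 := hc (fun _ => c)
    have h2 : (Fin.cons c (fun _ => c) : Fin 2 → E) = fun _ => c := by
      funext i
      refine Fin.cases ?_ (fun i => ?_) i
      · rfl
      · rfl
    rw [h2] at h1
    simp only [mem_ofPred_eq] at h1
    exact iff_not_self h1.symm

lemma bc_cases {E : Type*} {A : ℕ → Set E} {α : Ordinal.{0}} {S : Set E} (h : BC A α S) :
    (α = 0 ∧ ∃ n, S = A n ∨ S = (A n)ᶜ) ∨ (0 < α ∧ ∃ 𝒮 : Set (Set E), 𝒮.Countable ∧
      (∀ R ∈ 𝒮, ∃ β < α, BC A β R) ∧ (S = ⋃₀ 𝒮 ∨ S = (⋃₀ 𝒮)ᶜ)) := by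
  cases h with
  | base n => exact Or.inl ⟨rfl, n, Or.inl rfl⟩
  | baseCompl n => exact Or.inl ⟨rfl, n, Or.inr rfl⟩
  | union α hα 𝒮 h𝒮 β hβ h =>
    exact Or.inr ⟨hα, 𝒮, h𝒮, fun R hR => ⟨β R, hβ R hR, h R hR⟩, Or.inl rfl⟩
  | unionCompl α hα 𝒮 h𝒮 β hβ h =>
    exact Or.inr ⟨hα, 𝒮, h𝒮, fun R hR => ⟨β R, hβ R hR, h R hR⟩, Or.inr rfl⟩

/-- decoding -/
def D (U : ℕ → Set ((ℕ → ℕ) × (ℕ → Bool))) (p : (ℕ → ℕ) × (ℕ → Bool)) : Prop :=
  ∃ n i, p.1 (Nat.pair n 0 + 1) = i + 1 ∧ ((fun j => p.1 (Nat.pair n (j + 1) + 1)), p.2) ∈ U i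

lemma meas_D (U : ℕ → Set ((ℕ → ℕ) × (ℕ → Bool))) (hU : ∀ i, MeasurableSet (U i)) :
    MeasurableSet {p | D U p} := by
  have h : {p | D U p} = ⋃ n, ⋃ i, ({p : (ℕ → ℕ) × (ℕ → Bool) | p.1 (Nat.pair n 0 + 1) = i + 1} ∩
      {p : (ℕ → ℕ) × (ℕ → Bool) | ((fun j => p.1 (Nat.pair n (j + 1) + 1)), p.2) ∈ U i}) := by
    ext p
    simp [D]
  rw [h]
  refine MeasurableSet.iUnion fun n => MeasurableSet.iUnion fun i => MeasurableSet.inter ?_ ?_
  · have h1 : Measurable fun p : (ℕ → ℕ) × (ℕ → Bool) => p.1 (Nat.pair n 0 + 1) :=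
      (measurable_pi_apply _).comp measurable_fst
    exact h1 (measurableSet_singleton (i + 1))
  · have h1 : Measurable fun p : (ℕ → ℕ) × (ℕ → Bool) =>
        (((fun j => p.1 (Nat.pair n (j + 1) + 1)) : ℕ → ℕ), p.2) := by
      refine Measurable.prodMk ?_ measurable_snd
      exact measurable_pi_lambda _ fun j => (measurable_pi_apply _).comp measurable_fst
    exact h1 (hU i)

lemma D_code (U : ℕ → Set ((ℕ → ℕ) × (ℕ → Bool))) (v : ℕ) (i : ℕ → ℕ) (c : ℕ → ℕ → ℕ) :
    ∃ d : ℕ → ℕ, d 0 = v ∧ ∀ t, D U (d, t) ↔ ∃ n, i n ≠ 0 ∧ (c n, t) ∈ U (i n - 1) := by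
  refine ⟨fun q => if q = 0 then v else
    if (Nat.unpair (q - 1)).2 = 0 then i (Nat.unpair (q - 1)).1
    else c (Nat.unpair (q - 1)).1 ((Nat.unpair (q - 1)).2 - 1), rfl, fun t => ?_⟩
  unfold D
  simp only [Nat.add_eq_zero_iff, one_ne_zero, and_false, if_false, Nat.add_sub_cancel,
    Nat.unpair_pair, if_true]
  refine exists_congr fun n => ?_
  constructor
  · rintro ⟨j, hj, h⟩
    refine ⟨by omega, ?_⟩
    rw [hj]
    exact h
  · rintro ⟨h1, h2⟩
    exact ⟨i n - 1, by omega, h2⟩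

lemma univ_bc {E : Type*} (A : ℕ → Set E) (α : Ordinal.{0}) : (Iio α).Countable →
    ∃ U : Set ((ℕ → ℕ) × (ℕ → Bool)), MeasurableSet U ∧
      ∀ S, BC A α S → ∃ c, ∀ x, x ∈ S ↔ (c, chi A x) ∈ U := by
  classical
  induction α using WellFoundedLT.induction with
  | _ α ih =>
    intro hα
    rcases eq_or_ne α 0 with h0 | h0
    · refine ⟨⋃ n, ({p : (ℕ → ℕ) × (ℕ → Bool) | p.1 1 = n} ∩
        (({p : (ℕ → ℕ) × (ℕ → Bool) | p.1 0 = 0} ∩ {p : (ℕ → ℕ) × (ℕ → Bool) | p.2 n = true}) ∪
        ({p : (ℕ → ℕ) × (ℕ → Bool) | p.1 0 = 1} ∩ {p : (ℕ → ℕ) × (ℕ → Bool) | p.2 n = false}))),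
        ?_, ?_⟩
      · have e1 : ∀ q : ℕ, Measurable fun p : (ℕ → ℕ) × (ℕ → Bool) => p.1 q := fun q =>
          (measurable_pi_apply q).comp measurable_fst
        have e2 : ∀ q : ℕ, Measurable fun p : (ℕ → ℕ) × (ℕ → Bool) => p.2 q := fun q =>
          (measurable_pi_apply q).comp measurable_snd
        refine MeasurableSet.iUnion fun n => MeasurableSet.inter (e1 1 (measurableSet_singleton n))
          (MeasurableSet.union (MeasurableSet.inter (e1 0 (measurableSet_singleton 0))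
            (e2 n (measurableSet_singleton true))) (MeasurableSet.inter
            (e1 0 (measurableSet_singleton 1)) (e2 n (measurableSet_singleton false))))
      · intro S hS
        rcases bc_cases hS with ⟨-, n, h | h⟩ | ⟨h, -⟩
        · refine ⟨fun q => if q = 0 then 0 else n, fun x => ?_⟩
          subst h
          simp [chi_iff]
        · refine ⟨fun q => if q = 0 then 1 else n, fun x => ?_⟩
          subst h
          have := chi_iff A x n
          simp only [mem_compl_iff, ← this]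
          simp
        · exact absurd h0 h.ne'
    · have hpos : 0 < α := pos_iff_ne_zero.2 h0
      obtain ⟨g, hg⟩ := hα.exists_eq_range ⟨0, hpos⟩
      have hgα : ∀ i, g i < α := fun i => by
        have : g i ∈ Iio α := by
          rw [hg]
          exact mem_range_self i
        exact this
      have h1 : ∀ i, ∃ U : Set ((ℕ → ℕ) × (ℕ → Bool)), MeasurableSet U ∧
          ∀ S, BC A (g i) S → ∃ c, ∀ x, x ∈ S ↔ (c, chi A x) ∈ U := fun i =>
        ih (g i) (hgα i) (hα.mono fun γ hγ => lt_trans hγ (hgα i))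
      choose U hU hU2 using h1
      refine ⟨({p | p.1 0 = 0} ∩ {p | D U p}) ∪ ({p | p.1 0 = 1} ∩ {p | D U p}ᶜ), ?_, ?_⟩
      · have e1 : Measurable fun p : (ℕ → ℕ) × (ℕ → Bool) => p.1 0 :=
          (measurable_pi_apply 0).comp measurable_fst
        exact ((e1 (measurableSet_singleton 0)).inter (meas_D U hU)).union
          ((e1 (measurableSet_singleton 1)).inter (meas_D U hU).compl)
      · intro S hS
        rcases bc_cases hS with ⟨h, -⟩ | ⟨-, 𝒮, h𝒮, hR, hS2⟩
        · exact absurd h h0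
        · have h2 : ∀ v, ∃ c : ℕ → ℕ, c 0 = v ∧ ∀ x, D U (c, chi A x) ↔ x ∈ ⋃₀ 𝒮 := by
            intro v
            rcases 𝒮.eq_empty_or_nonempty with rfl | hne
            · obtain ⟨d, hd, hd2⟩ := D_code U v (fun _ => 0) (fun _ _ => 0)
              refine ⟨d, hd, fun x => ?_⟩
              rw [hd2]
              simp
            · obtain ⟨s, hs⟩ := h𝒮.exists_eq_range hne
              have h3 : ∀ n, ∃ i, ∃ c : ℕ → ℕ, ∀ x, x ∈ s n ↔ (c, chi A x) ∈ U i := by
                intro n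
                have h4 : s n ∈ 𝒮 := by
                  rw [hs]
                  exact mem_range_self n
                obtain ⟨β, hβ, hβ2⟩ := hR _ h4
                have h5 : β ∈ range g := by
                  rw [← hg]
                  exact hβ
                obtain ⟨i, rfl⟩ := h5
                exact ⟨i, hU2 i _ hβ2⟩
              choose i c hc using h3
              obtain ⟨d, hd, hd2⟩ := D_code U v (fun n => i n + 1) c
              refine ⟨d, hd, fun x => ?_⟩
              rw [hd2, hs]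
              simp [hc]
          rcases hS2 with rfl | rfl
          · obtain ⟨c, hc, hc2⟩ := h2 0
            refine ⟨c, fun x => ?_⟩
            rw [← hc2]
            simp [hc]
          · obtain ⟨c, hc, hc2⟩ := h2 1
            refine ⟨c, fun x => ?_⟩
            rw [mem_compl_iff, ← hc2]
            simp [hc]

lemma not_stable {E : Type*} (A : ℕ → Set E) (h : Large A) : NotStable A := by
  intro α hα
  obtain ⟨U, hU, hU2⟩ := univ_bc A α hα
  obtain ⟨F, hF, hFs⟩ := large_surj A h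
  refine ⟨{x | (F x, chi A x) ∉ U}, ?_, fun hS => ?_⟩
  · let _ := MeasurableSpace.generateFrom (range A)
    have h1 : Measurable (chi A) := by
      refine measurable_pi_lambda _ fun n => measurable_to_bool ?_
      have : (fun x : E => chi A x n) ⁻¹' {true} = A n := by
        ext x
        simp [chi_iff]
      rw [this]
      exact MeasurableSpace.measurableSet_generateFrom ⟨n, rfl⟩
    exact (hF.prodMk h1) hU.compl
  · obtain ⟨c, hc⟩ := hU2 _ hS
    obtain ⟨x, rfl⟩ := hFs c
    have h1 := hc x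
    simp only [mem_ofPred_eq] at h1
    exact iff_not_self h1.symm

/-- the points of `E^m` with a coordinate outside `⋃ A_n` -/
def Out {E : Type*} (A : ℕ → Set E) (m : ℕ) : Set (Fin m → E) := {x | ∃ i, ∀ n, x i ∉ A n}

lemma out_bor {E : Type*} (A : ℕ → Set E) (m : ℕ) (S : Set (Fin m → E))
    (hS : MeasurableSet[Bor A m] S) : (∀ x ∈ Out A m, x ∈ S) ∨ (∀ x ∈ Out A m, x ∉ S) := by
  refine MeasurableSpace.generateFrom_induction (rects A m)
    (fun S _ => (∀ x ∈ Out A m, x ∈ S) ∨ (∀ x ∈ Out A m, x ∉ S)) ?_ ?_ ?_ ?_ S hS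
  · rintro R ⟨n, rfl⟩ _
    right
    rintro x ⟨i, hi⟩ h
    exact hi _ (h i)
  · right
    intro x _ h
    exact h
  · rintro R _ (h | h)
    · right
      intro x hx h'
      exact h' (h x hx)
    · left
      intro x hx
      exact h x hx
  · intro R _ h
    by_cases h1 : ∃ n, ∀ x ∈ Out A m, x ∈ R n
    · obtain ⟨n, hn⟩ := h1
      left
      intro x hx
      exact mem_iUnion.2 ⟨n, hn x hx⟩
    · right
      intro x hx hx'
      obtain ⟨n, hn⟩ := mem_iUnion.1 hx'
      rcases h n with h2 | h2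
      · exact h1 ⟨n, h2⟩
      · exact h2 x hx hn

lemma snoc_out {E : Type*} (A : ℕ → Set E) {z : E} (hz : ∀ n, z ∉ A n) {m : ℕ} (x : Fin m → E) :
    (Fin.snoc x z : Fin (m + 1) → E) ∈ Out A (m + 1) :=
  ⟨Fin.last m, fun n => by simpa using hz n⟩

lemma sig_out {E : Type*} (A : ℕ → Set E) {z : E} (hz : ∀ n, z ∉ A n) (m : ℕ)
    (S : Set (Fin m → E)) (hS : S ∈ Sig A 1 m) : S = univ ∨ ∀ x ∈ Out A m, x ∉ S := by
  obtain ⟨R, hR, rfl⟩ := hS
  rcases out_bor A (m + 1) R hR with h | h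
  · right
    rintro x ⟨i, hi⟩ ⟨y, hy⟩
    refine hy (h _ ⟨i.castSucc, fun n => ?_⟩)
    simpa using hi n
  · left
    ext x
    simp only [mem_univ, iff_true]
    exact ⟨z, h _ (snoc_out A hz x)⟩

lemma sig_two {E : Type*} (A : ℕ → Set E) {z : E} (hz : ∀ n, z ∉ A n) (k : ℕ) : ∀ (m : ℕ)
    (S : Set (Fin m → E)), S ∈ Sig A (k + 2) m → S = univ ∨ S = ∅ := by
  induction k with
  | zero =>
    rintro m S ⟨R, hR, rfl⟩
    rcases sig_out A hz (m + 1) R hR with rfl | h
    · right
      ext x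
      simp [proj]
    · left
      ext x
      simp only [mem_univ, iff_true]
      exact ⟨z, h _ (snoc_out A hz x)⟩
  | succ k ih =>
    rintro m S ⟨R, hR, rfl⟩
    rcases ih (m + 1) R hR with rfl | rfl
    · right
      ext x
      simp [proj]
    · left
      ext x
      simp only [mem_univ, iff_true]
      exact ⟨z, fun h => h⟩

lemma class_one {E : Type*} (A : ℕ → Set E) (h : ∃ n, (A n).Nonempty) (P : Set ℕ) :
    IsClass A 1 (⋃ p ∈ P, A p) := by
  refine ⟨(⋃ n : {n : Fin 2 → ℕ // n 0 ∈ P}, {x : Fin 2 → E | ∀ i, x i ∈ A (n.1 i)})ᶜ, ?_, ?_⟩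
  · show MeasurableSet[Bor A 2] _
    refine MeasurableSet.compl ?_
    exact MeasurableSet.iUnion fun p => MeasurableSpace.measurableSet_generateFrom ⟨p.1, rfl⟩
  · obtain ⟨q, a, ha⟩ := h
    ext x
    simp only [proj, compl_compl, mem_ofPred_eq, mem_iUnion]
    constructor
    · rintro ⟨p, hp, hx⟩
      refine ⟨a, ⟨![p, q], by simpa using hp⟩, fun i => ?_⟩
      fin_cases i
      · simpa [Fin.snoc] using hx
      · simpa [Fin.snoc] using ha
    · rintro ⟨y, ⟨n, hn⟩, h1⟩
      refine ⟨n 0, hn, ?_⟩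
      have := h1 0
      simpa [Fin.snoc] using this

lemma no_cover {E : Type*} (A : ℕ → Set E) (hA : ⋃ n, A n ≠ univ) (h : ∃ n, (A n).Nonempty) (k : ℕ)
    (hk : 1 ≤ k) : ¬ Collapse A k := by
  obtain ⟨z, hz⟩ := (ne_univ_iff_exists_notMem _).1 hA
  have hz' : ∀ n, z ∉ A n := fun n hn => hz (mem_iUnion.2 ⟨n, hn⟩)
  intro hc
  obtain ⟨q, a, ha⟩ := id h
  rcases Nat.lt_or_ge 1 k with h2 | h2
  · obtain ⟨k, rfl⟩ := Nat.exists_eq_add_of_le' h2
    have h3 := hc (A q) ⟨1, le_rfl, Or.inl (by simpa using class_one A h {q})⟩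
    rcases sig_two A hz' k 1 _ h3 with h4 | h4
    · have := Set.ext_iff.1 h4 fun _ => z
      simp only [mem_ofPred_eq, mem_univ, iff_true] at this
      exact hz' q this
    · have := Set.ext_iff.1 h4 fun _ => a
      simp only [mem_ofPred_eq, mem_empty_iff_false, iff_false] at this
      exact this ha
  · obtain rfl : k = 1 := by omega
    have h3 := hc (⋃ p ∈ (univ : Set ℕ), A p)ᶜ ⟨1, le_rfl, Or.inr (by
      rw [compl_compl]
      exact class_one A h univ)⟩
    rcases sig_out A hz' 1 _ h3 with h4 | h4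
    · have := Set.ext_iff.1 h4 fun _ => a
      simp only [mem_ofPred_eq, mem_univ, iff_true, mem_compl_iff, mem_iUnion] at this
      exact this ⟨q, trivial, ha⟩
    · refine h4 (fun _ => z) ⟨0, hz'⟩ ?_
      simp only [mem_ofPred_eq, mem_compl_iff, mem_iUnion]
      rintro ⟨n, -, hn⟩
      exact hz' n hn

lemma cylinder {E : Type*} (A : ℕ → Set E) (hA : ⋃ n, A n = univ) (k : ℕ) (S : Set E)
    (h : IsClass A k Sᶜ) : IsClass A (k + 1) S := by
  have h2 := sig_reindex A hA k 1 2 (fun _ => 0) _ h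
  refine ⟨_, h2, ?_⟩
  ext x
  simp only [proj, mem_ofPred_eq, mem_compl_iff, not_not]
  constructor
  · intro h
    refine ⟨x 0, ?_⟩
    simpa [Fin.snoc] using h
  · rintro ⟨y, hy⟩
    simpa [Fin.snoc] using hy

lemma mono_step {E : Type*} (A : ℕ → Set E) (hA : ⋃ n, A n = univ) (k : ℕ)
    (hc : Collapse A k) : Collapse A (k + 1) := by
  intro S hS
  have h1 : IsProjective A Sᶜ := by
    obtain ⟨j, hj, h⟩ := hS
    refine ⟨j, hj, ?_⟩
    rw [compl_compl]
    exact h.symm
  exact cylinder A hA k S (hc _ h1)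

/-- **Theorem.** Let `(A_n)` be a sequence of subsets of a set `E`.

(1) If `E` is large for `{A_n}`, then (a) holds and (b)_k fails for every `k ≥ 1`: for every `k` some
projective set over `{A_n}` is not of class `k`.

(2) If moreover `⋃ A_n = E`, the classes increase strictly: for every `k` (`k = 0` included) some set of
class `k + 1` is not of class `k`.

(3) If `⋃ A_n = E`, then (b)_k implies (b)_k' for all `k' ≥ k ≥ 1`.

(4) If `⋃ A_n ≠ E` and some `A_n` is nonempty, then (b)_k fails for every `k ≥ 1`. -/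
theorem result {E : Type*} (A : ℕ → Set E) :
    (Large A → NotStable A ∧ ∀ k, 1 ≤ k → ¬ Collapse A k) ∧
    (Large A → ⋃ n, A n = univ → ∀ k, ∃ S, IsClass A (k + 1) S ∧ ¬ IsClass A k S) ∧
    (⋃ n, A n = univ → ∀ k k', 1 ≤ k → k ≤ k' → Collapse A k → Collapse A k') ∧
    (⋃ n, A n ≠ univ → (∃ n, (A n).Nonempty) → ∀ k, 1 ≤ k → ¬ Collapse A k) := by
  refine ⟨fun h => ⟨not_stable A h, fun k hk hc => ?_⟩, fun h hA k => ?_,
    fun hA k k' _ hkk hc => ?_, no_cover A⟩
  · by_cases hA : ⋃ n, A n = univ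
    · obtain ⟨S, h1, h2⟩ := main A hA h k
      exact h2 (hc S ⟨k + 1, by omega, Or.inr h1⟩)
    · by_cases h0 : ∃ n, (A n).Nonempty
      · exact no_cover A hA h0 k hk hc
      · have h1 : ∀ n, A n = ∅ := fun n => not_nonempty_iff_eq_empty.1 fun hn => h0 ⟨n, hn⟩
        have h2 : MeasurableSpace.generateFrom (range A) ≤ ⊥ := by
          refine MeasurableSpace.generateFrom_le ?_
          rintro R ⟨n, rfl⟩
          rw [h1 n]
          exact @MeasurableSet.empty _ ⊥
        obtain ⟨F, hF, hFs⟩ := large_surj A h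
        obtain ⟨x, hx⟩ := hFs fun _ => 0
        obtain ⟨y, hy⟩ := hFs fun _ => 1
        have h4 : MeasurableSet[MeasurableSpace.generateFrom (range A)] {x | F x 0 = 0} := by
          let _ := MeasurableSpace.generateFrom (range A)
          exact ((measurable_pi_apply 0).comp hF) (measurableSet_singleton 0)
        rcases MeasurableSpace.measurableSet_bot_iff.1 (h2 _ h4) with h3 | h3
        · have := Set.ext_iff.1 h3 x
          simp [hx] at this
        · have := Set.ext_iff.1 h3 y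
          simp [hy] at this
  · obtain ⟨S, h1, h2⟩ := main A hA h k
    by_cases h3 : IsClass A k Sᶜ
    · exact ⟨S, cylinder A hA k S h3, h2⟩
    · exact ⟨Sᶜ, h1, h3⟩
  · induction k', hkk using Nat.le_induction with
    | base => exact hc
    | succ n _ ih => exact mono_step A hA n ih

end Pool.Agent.Results.MP_1c8600_lc.NoCollapse
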